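import Pool.Agent.H97.SHL.Targets
import Pool.Agent.H80.SHL.ZRC

/-!
# Row ZBD of shl_modules: the centred counts are small (helper6)
-/

set_option autoImplicit false

namespace Pool.Agent.H6.SHL

open Finset Pool.Agent.H97.SHL

/-- the pairs which agree on `insert i J`, sorted by the common value of the block `i` -/
theorem pr_insert {m B : ℕ} (R : Finset (Pt m B)) (J : Finset (Fin m)) (i : Fin m) :
    pr R (insert i J) = ∑ γ : Fin B, pr (R.filter (fun x => x i = γ)) J := by
  unfold pr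
  rw [Finset.card_eq_sum_card_fiberwise
    (f := fun u : Pt m B × Pt m B => u.1 i) (t := (univ : Finset (Fin B)))
    (fun _ _ => Finset.mem_coe.2 (Finset.mem_univ _))]
  refine Finset.sum_congr rfl fun γ _ => ?_
  congr 1
  ext u
  simp only [mem_filter, mem_product, mem_insert]
  constructor
  · rintro ⟨⟨⟨h1, h2⟩, h3⟩, h4⟩
    have h5 : u.1 i = u.2 i := h3 i (Or.inl rfl)
    exact ⟨⟨⟨h1, h4⟩, ⟨h2, h5 ▸ h4⟩⟩, fun j hj => h3 j (Or.inr hj)⟩
  · rintro ⟨⟨⟨h1, h4⟩, ⟨h2, h5⟩⟩, h3⟩
    refine ⟨⟨⟨h1, h2⟩, ?_⟩, h4⟩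
    rintro j (rfl | hj)
    · rw [h4, h5]
    · exact h3 j hj

/-- the claim of the induction -/
theorem zbd_aux {m B q : ℕ} (Λ : ℝ) (𝓟 : Finset (Finset (Pt m B))) (G : Fin m → Fin B → Fin q)
    (hΛ : 0 ≤ Λ) (hG : Gd Λ 𝓟 G) (P : Finset (Pt m B)) (hP : P ∈ 𝓟) (η : Fin m → Fin q)
    (J : Finset (Fin m)) : ∀ (C : Finset (Fin m)) (z : Pt m B), Disjoint C J →
    Zs G (fx P C z) J η ^ 2 ≤ Λ ^ J.card * pr (fx P C z) J := by
  classical
  induction J using Finset.induction_on with
  | empty =>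
    intro C z _
    have h1 : Zs G (fx P C z) ∅ η = ((fx P C z).card : ℝ) := by
      unfold Zs
      simp
    have h2 : pr (fx P C z) ∅ = (fx P C z).card ^ 2 := by
      unfold pr
      rw [Finset.filter_true_of_mem (fun u _ j hj => absurd hj (Finset.notMem_empty j)),
        Finset.card_product, sq]
    rw [h1, h2]
    simp
  | insert i J hi ih =>
    intro C z hd
    have hiC : i ∉ C := fun h => (Finset.disjoint_left.1 hd h) (Finset.mem_insert_self i J)
    have h1 := hG P hP C z (insert i J) η i (Finset.mem_insert_self i J) hiC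
    rw [Finset.erase_insert hi] at h1
    refine h1.trans ?_
    have hd' : Disjoint (insert i C) J := by
      rw [Finset.disjoint_insert_left]
      refine ⟨hi, ?_⟩
      exact Finset.disjoint_of_subset_right (Finset.subset_insert i J) hd
    have h2 : ∑ γ : Fin B, Zs G (fx P (insert i C) (Function.update z i γ)) J η ^ 2 ≤
        ∑ γ : Fin B, Λ ^ J.card * (pr (fx P (insert i C) (Function.update z i γ)) J : ℝ) :=
      Finset.sum_le_sum fun γ _ => ih (insert i C) (Function.update z i γ) hd'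
    have h3 : (pr (fx P C z) (insert i J) : ℝ) =
        ∑ γ : Fin B, (pr (fx P (insert i C) (Function.update z i γ)) J : ℝ) := by
      rw [pr_insert]
      push_cast
      refine Finset.sum_congr rfl fun γ _ => ?_
      rw [Pool.Agent.H80.SHL.fx_insert P C z i hiC γ]
    rw [h3, Finset.card_insert_of_notMem hi, pow_succ', mul_assoc]
    refine mul_le_mul_of_nonneg_left ?_ hΛ
    rw [Finset.mul_sum]
    exact h2

/-- Row ZBD. -/
theorem pf_ZBD (_hZRC : T_ZRC) : T_ZBD := by
  intro m B q Λ 𝓟 G hΛ hG P hP J η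
  rcases P.eq_empty_or_nonempty with rfl | ⟨z, _⟩
  · have h1 : Zs G ∅ J η = 0 := by
      unfold Zs
      simp
    rw [h1]
    have h2 : (0 : ℝ) ≤ Λ ^ J.card * (pr (∅ : Finset (Pt m B)) J : ℝ) :=
      mul_nonneg (pow_nonneg hΛ _) (Nat.cast_nonneg _)
    simpa using h2
  · have h1 := zbd_aux Λ 𝓟 G hΛ hG P hP η J ∅ z (Finset.disjoint_empty_left J)
    have h2 : fx P ∅ z = P := by
      unfold fx
      exact Finset.filter_true_of_mem (fun x _ j hj => absurd hj (Finset.notMem_empty j))
    rwa [h2] at h1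

end Pool.Agent.H6.SHL
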